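import Pool.Agent.Helper489_MP.Final

set_option autoImplicit false

/-!
A multi-peak estimate for the KPZ fixed point, for every initial datum.
-/

namespace Pool.Agent.Results.MP_9fcc4c_pr.MultiPeak

open MeasureTheory
open Pool.Agent.W541.DL

/-- The weight of the chain of points `(y 0, s 0), ..., (y d, s d)` for the initial datum `h0` at
time `s 0` in the landscape `f`. -/
noncomputable def weight {d : ℕ} (f : R4 → ℝ) (h0 : ℝ → EReal) (s y : Fin (d + 1) → ℝ) : EReal :=
  h0 (y 0) +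
    ((∑ j : Fin d, val f (y j.castSucc) (s j.castSucc) (y j.succ) (s j.succ) : ℝ) : EReal)

/-- The chain `y` has finite weight, and no chain has a weight larger by more than `η`. -/
def NearOpt {d : ℕ} (f : R4 → ℝ) (h0 : ℝ → EReal) (s : Fin (d + 1) → ℝ) (η : ℝ)
    (y : Fin (d + 1) → ℝ) : Prop :=
  weight f h0 s y ≠ ⊥ ∧ ∀ y' : Fin (d + 1) → ℝ, weight f h0 s y' ≤ weight f h0 s y + (η : EReal)

/-- The vector of the `d` spatial displacements of a chain. -/
def disp {d : ℕ} (y : Fin (d + 1) → ℝ) : Fin d → ℝ := fun j => y j.succ - y j.castSucc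

/-- **Multi-peak estimate**: for every initial datum and all times `s 0 < ... < s d`, the
probability that the displacement vectors of the `η`-near-optimal chains span (as a convex hull) a
box with sides `4 ρ j` is at most `∏ j, η (s (j+1) - s j) / (4 (ρ j)^2)`. -/
theorem result (Ω : Type) [MeasurableSpace Ω] (P : Measure Ω) (L : Ω → C(R4, ℝ))
    (hL : IsDirectedLandscape P L) (h0 : ℝ → EReal) (hfin : ∀ x, h0 x ≠ ⊤)
    (d : ℕ) (s : Fin (d + 1) → ℝ) (hs : StrictMono s) (η : ℝ) (hη : 0 < η)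
    (ρ : Fin d → ℝ) (hρ : ∀ j, 0 < ρ j) :
    P {ω | ∃ (Y : Finset (Fin (d + 1) → ℝ)) (c : Fin d → ℝ),
        (∀ y ∈ Y, NearOpt (L ω) h0 s η y) ∧
        Set.Icc (fun j => c j - 2 * ρ j) (fun j => c j + 2 * ρ j) ⊆
          convexHull ℝ (disp '' (Y : Set (Fin (d + 1) → ℝ)))} ≤
      ENNReal.ofReal (∏ j : Fin d, η * (s j.succ - s j.castSucc) / (4 * ρ j ^ 2)) := by
  refine le_trans (measure_mono ?_)
    (Pool.Agent.Helper489_MP.multi_peak hL h0 hfin s hs η hη ρ hρ)
  rintro ω ⟨Y, c, hY, h⟩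
  refine ⟨Y, c, fun y hy => ?_, h⟩
  obtain ⟨h1, h2⟩ := hY y hy
  refine ⟨fun h3 => h1 ?_, fun y' => ?_⟩
  · unfold weight
    rw [h3, EReal.bot_add]
  · have h4 := h2 y'
    unfold weight at h4
    rw [add_assoc, ← EReal.coe_add] at h4
    exact h4

end Pool.Agent.Results.MP_9fcc4c_pr.MultiPeak
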